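import Mathlib

/-!
# CD algebras without faithful modules

In a CD algebra the Jacobian `J(x, y, z) = (x y) z + (y z) x + (z x) y` satisfies `J(x, y, z) w = 0`.
Applied to the null extension by a module this shows that the Jacobians of a CD algebra act by zero on
every module.
-/

set_option autoImplicit false
set_option linter.all false

namespace Pool.Agent.Results.MP_361790_al.NoFaithfulModule

universe u v

/-- The product `μ` is that of a CD algebra: it is anticommutative (`x x = 0`) and all the maps
`[R_a, R_b]`, where `R_a x = x a`, are derivations. -/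
def IsCD {A : Type*} [AddCommGroup A] (μ : A → A → A) : Prop :=
  (∀ x, μ x x = 0) ∧ ∀ a b x y : A,
    μ (μ (μ x y) b) a - μ (μ (μ x y) a) b =
      μ (μ (μ x b) a - μ (μ x a) b) y + μ x (μ (μ y b) a - μ (μ y a) b)

/-- The product `(a, m) (b, n) = (a b, a • n - b • m)` on the sum of an algebra and a space on which
it acts by `ρ`. -/
def extProd {A M : Type*} [AddCommGroup M] (μ : A → A → A) (ρ : A → M → M) (p q : A × M) : A × M :=
  (μ p.1 q.1, ρ p.1 q.2 - ρ q.1 p.2)

/-- The Jacobian annihilates a CD algebra. -/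
theorem two_jacobian {E : Type*} [AddCommGroup E] (μ : E → E → E)
    (hadd : ∀ x y z, μ (x + y) z = μ x z + μ y z) (hadd' : ∀ x y z, μ x (y + z) = μ x y + μ x z)
    (h : IsCD μ) (x y z w : E) :
    μ (μ (μ x y) z + μ (μ y z) x + μ (μ z x) y) w + μ (μ (μ x y) z + μ (μ y z) x + μ (μ z x) y) w
      = 0 := by
  have anti : ∀ x y, μ x y = - μ y x := by
    intro x y
    have h1 := h.1 (x + y)
    rw [hadd, hadd', hadd', h.1, h.1, zero_add, add_zero] at h1
    exact eq_neg_of_add_eq_zero_left h1
  have hz : ∀ y, μ 0 y = 0 := by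
    intro y
    have := hadd 0 0 y
    rw [add_zero] at this
    exact left_eq_add.1 this
  have hneg : ∀ x y, μ (-x) y = - μ x y := by
    intro x y
    have := hadd x (-x) y
    rw [add_neg_cancel, hz] at this
    exact eq_neg_of_add_eq_zero_right this.symm
  have hsub : ∀ x y z, μ (x - y) z = μ x z - μ y z := by
    intro x y z; rw [sub_eq_add_neg, hadd, hneg, sub_eq_add_neg]
  -- the identity in left normed form
  have f : ∀ a b x y : E, μ (μ (μ x y) b) a - μ (μ (μ x y) a) b - μ (μ (μ x b) a) y +
      μ (μ (μ x a) b) y + μ (μ (μ y b) a) x - μ (μ (μ y a) b) x = 0 := by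
    intro a b x y
    have h1 := h.2 a b x y
    rw [h1, anti x (μ (μ y b) a - μ (μ y a) b), hsub, hsub]
    abel
  have e1 := f y z x w
  have e2 := f x z y w
  have e3 := f x y z w
  have s1 : ∀ a b, μ (μ (μ w x) a) b = - μ (μ (μ x w) a) b := by
    intro a b; rw [anti w x, hneg, hneg]
  have s2 : ∀ a b, μ (μ (μ w y) a) b = - μ (μ (μ y w) a) b := by
    intro a b; rw [anti w y, hneg, hneg]
  have s3 : ∀ a b, μ (μ (μ w z) a) b = - μ (μ (μ z w) a) b := by
    intro a b; rw [anti w z, hneg, hneg]
  have s4 : ∀ a b, μ (μ (μ y x) a) b = - μ (μ (μ x y) a) b := by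
    intro a b; rw [anti y x, hneg, hneg]
  have s5 : ∀ a b, μ (μ (μ z x) a) b = - μ (μ (μ x z) a) b := by
    intro a b; rw [anti z x, hneg, hneg]
  have s6 : ∀ a b, μ (μ (μ z y) a) b = - μ (μ (μ y z) a) b := by
    intro a b; rw [anti z y, hneg, hneg]
  simp only [s1, s2, s3, s4, s5, s6] at e1 e2 e3
  rw [hadd, hadd, s5]
  linear_combination (norm := skip) e1 - e2 + e3
  abel_nf

section

variable {K : Type u} [Field K]

/-- The Jacobians of a CD algebra act by zero on every module. -/
theorem jacobian_act (h2 : (2 : K) ≠ 0) {A : Type*} [AddCommGroup A] [Module K A]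
    (μ : A →ₗ[K] A →ₗ[K] A) {M : Type*} [AddCommGroup M] [Module K M] (ρ : A →ₗ[K] M →ₗ[K] M)
    (h : IsCD (extProd (fun a b => μ a b) (fun a m => ρ a m))) (x y z : A) (m : M) :
    ρ (μ (μ x y) z + μ (μ y z) x + μ (μ z x) y) m = 0 := by
  have h1 := two_jacobian (extProd (fun a b => μ a b) (fun a m => ρ a m))
    (fun p q r => by
      simp only [extProd, Prod.fst_add, Prod.snd_add, map_add, LinearMap.add_apply, Prod.mk_add_mk]
      congr 1; abel)
    (fun p q r => by
      simp only [extProd, Prod.fst_add, Prod.snd_add, map_add, LinearMap.add_apply, Prod.mk_add_mk]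
      congr 1; abel) h (x, 0) (y, 0) (z, 0) (0, m)
  have h3 := congrArg Prod.snd h1
  simp only [extProd, map_zero, sub_zero, Prod.mk_add_mk, add_zero, sub_self,
    LinearMap.zero_apply, Prod.snd_zero] at h3
  have h4 : (2 : K) • ρ (μ (μ x y) z + μ (μ y z) x + μ (μ z x) y) m = 0 := by
    rw [two_smul]; exact h3
  rcases smul_eq_zero.1 h4 with h5 | h5
  · exact absurd h5 h2
  · exact h5

/-- The product of the five-dimensional algebra with basis `e0, ..., e4` and nonzero products
`e0 e1 = e3 = - e1 e0`, `e3 e2 = e4 = - e2 e3`. -/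
def five : (Fin 5 → K) →ₗ[K] (Fin 5 → K) →ₗ[K] (Fin 5 → K) :=
  LinearMap.mk₂ K (fun a b => ![0, 0, 0, a 0 * b 1 - a 1 * b 0, a 3 * b 2 - a 2 * b 3])
    (fun a a' b => by ext i; fin_cases i <;> simp <;> ring)
    (fun c a b => by ext i; fin_cases i <;> simp <;> ring)
    (fun a b b' => by ext i; fin_cases i <;> simp <;> ring)
    (fun c a b => by ext i; fin_cases i <;> simp <;> ring)

theorem five_apply (a b : Fin 5 → K) :
    five a b = ![0, 0, 0, a 0 * b 1 - a 1 * b 0, a 3 * b 2 - a 2 * b 3] := rfl

theorem five_isCD : IsCD (fun a b : Fin 5 → K => five a b) := by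
  have h0 : ∀ x y a b : Fin 5 → K, five (five (five x y) a) b = 0 := by
    intro x y a b
    ext i
    fin_cases i <;> simp [five_apply]
  have hs : ∀ x y : Fin 5 → K, five x y = - five y x := by
    intro x y
    ext i
    fin_cases i <;> simp [five_apply] <;> ring
  refine ⟨fun x => ?_, fun a b x y => ?_⟩
  · ext i
    fin_cases i <;> simp [five_apply] <;> ring
  · show five (five (five x y) b) a - five (five (five x y) a) b =
      five (five (five x b) a - five (five x a) b) y + five x (five (five y b) a - five (five y a) b)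
    have e1 : five x (five (five y b) a) = 0 := by rw [hs x, h0, neg_zero]
    have e2 : five x (five (five y a) b) = 0 := by rw [hs x, h0, neg_zero]
    rw [map_sub (five x), e1, e2, map_sub five, LinearMap.sub_apply, h0, h0, h0, h0]
    simp

end

/-- Over every field `K` of characteristic not `2` there is a five-dimensional CD algebra all of whose
modules, of any dimension, are non-faithful. -/
theorem result (K : Type u) [Field K] (h2 : ringChar K ≠ 2) :
    ∃ μ : (Fin 5 → K) →ₗ[K] (Fin 5 → K) →ₗ[K] (Fin 5 → K), IsCD (fun a b => μ a b) ∧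
      ∀ (M : Type v) [AddCommGroup M] [Module K M] (ρ : (Fin 5 → K) →ₗ[K] M →ₗ[K] M),
        IsCD (extProd (fun a b => μ a b) (fun a m => ρ a m)) → ∃ a ≠ 0, ∀ m, ρ a m = 0 := by
  refine ⟨five, five_isCD, fun M _ _ ρ hρ => ⟨Pi.single 4 1, ?_, fun m => ?_⟩⟩
  · intro h
    have := congrFun h 4
    simp at this
  · have h4 := jacobian_act (Ring.two_ne_zero h2) five ρ hρ (Pi.single 0 1) (Pi.single 1 1)
      (Pi.single 2 1) m
    have h5 : five (five (Pi.single 0 1) (Pi.single 1 1)) (Pi.single 2 1) +
        five (five (Pi.single 1 1) (Pi.single 2 1)) (Pi.single 0 1) +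
        five (five (Pi.single 2 1) (Pi.single 0 1)) (Pi.single 1 1) =
        (Pi.single 4 1 : Fin 5 → K) := by
      ext i
      fin_cases i <;> simp [five_apply, Pi.single_apply]
    rwa [h5] at h4

end Pool.Agent.Results.MP_361790_al.NoFaithfulModule
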